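import Pool.Agent.ATT.Stmts
import Pool.Agent.Helper70_LQF.UFL

/-!
# ATT, row CUP (helper49): the cut off
-/

set_option autoImplicit false

noncomputable section

namespace Pool.Agent.ATT.H49

open Pool.Agent.LE.QF

theorem cu_eq : (Pool.Agent.KIL.cu) = H70.cu := rfl

theorem cup : CupStmt := by
  unfold CupStmt
  rw [cu_eq]
  refine ⟨H70.cu_contDiff, ?_, ?_, ?_, ?_⟩
  · intro x y hxy
    unfold H70.cu
    have h1 : max (1 - y) 0 ≤ max (1 - x) 0 := max_le_max (by linarith) le_rfl
    have h2 := pow_le_pow_left₀ (le_max_right (1 - y) 0) h1 3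
    linarith
  · intro u hu
    exact ⟨H70.cu_nonneg hu, H70.cu_le_one u, H70.cu_le hu⟩
  · intro u hu
    exact H70.cu_eq_one hu
  · intro u hu hu1
    exact H70.le_cu hu hu1.le

end Pool.Agent.ATT.H49
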